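import Mathlib
import Pool.Agent.H94.IC.Targets3

/-!
# Insulating cracks, module FAM: complete families of profiles exist
-/

open MeasureTheory Set Filter Topology Metric
open scoped ENNReal NNReal ContDiff RealInnerProductSpace

namespace Pool.Agent.H2.IC

open Pool.Agent.H94.IC

theorem fam_proof (hBAR : T_BAR) (hPRO : T_PRO) : T_FAM := by
  intro Ω σ ν hD hσ
  obtain ⟨M, ψ, hψ, n, hn, H⟩ := hBAR Ω σ ν hD hσ
  obtain ⟨-, h0, hk⟩ := hPRO Ω σ ν hD hσ
  let ψ' : Fin 4 → E → ℝ :=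
    Fin.cons (psi0 Ω σ ν) (fun k : Fin 3 => fun x => ν x k)
  refine ⟨M + 4, Fin.append ψ ψ', ?_, ?_, ?_, ?_⟩
  · intro i
    refine Fin.addCases (fun j => ?_) (fun j => ?_) i
    · rw [Fin.append_left]
      exact hψ j
    · rw [Fin.append_right]
      refine Fin.cases ?_ (fun k => ?_) j
      · exact h0
      · exact hk k
  · refine ⟨n, hn, ?_⟩
    intro S h τ hS hSΩ hharm hsol ε hε
    obtain ⟨s, hs, Hs⟩ := H S (fun i => h (Fin.castAdd 4 i)) (fun i => τ (Fin.castAdd 4 i)) hS hSΩ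
      (fun i => hharm _) (fun i => by
        have := hsol (Fin.castAdd 4 i)
        rw [Fin.append_left] at this
        exact this) ε hε
    refine ⟨s, hs, fun x hx hx' => ?_⟩
    obtain ⟨r, hr⟩ := Hs x hx hx'
    refine ⟨r, fun ⟨v, hv, hvi⟩ => hr ⟨v, hv, fun i => hvi _⟩⟩
  · refine ⟨Fin.natAdd M 0, ?_⟩
    rw [Fin.append_right]
    rfl
  · intro k
    refine ⟨Fin.natAdd M k.succ, ?_⟩
    rw [Fin.append_right]
    rfl

end Pool.Agent.H2.IC
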