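import Mathlib
import Pool.Agent.H94.IC.Targets2
import Pool.Agent.H73.IC.HX
import Pool.Agent.H14.IC.INC
import Pool.Agent.H27.IC.GHC

/-!
# Insulating cracks, module NVC: constants do not solve the problem for the normal profiles
-/

open MeasureTheory Set Filter Topology Metric
open scoped ENNReal NNReal ContDiff RealInnerProductSpace

namespace Pool.Agent.H2.IC

open Pool.Agent.H94.IC

/-- a gradient with vanishing partial derivatives is zero -/
theorem gr_eq_zero {f : E → ℝ} {x : E} (h : ∀ l, pd l f x = 0) : gr f x = 0 := by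
  have h1 : fderiv ℝ f x = 0 := by
    ext v
    have hv : v = ∑ l : Fin 3, v l • ev l := by
      ext j
      fin_cases j <;> simp [Fin.sum_univ_three]
    rw [hv, map_sum]
    simp only [map_smul, ContinuousLinearMap.zero_apply]
    refine Finset.sum_eq_zero fun l _ => ?_
    have := h l
    unfold pd at this
    rw [this, smul_zero]
  unfold gr gradient
  rw [h1, map_zero]

theorem pd_eq_zero {f : E → ℝ} {x : E} (h : gr f x = 0) (l : Fin 3) : pd l f x = 0 := by
  unfold gr gradient at h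
  have h1 : fderiv ℝ f x = 0 := by
    have := congrArg (InnerProductSpace.toDual ℝ E) h
    simpa using this
  unfold pd
  rw [h1]
  rfl

theorem nvc_proof (hHSM : T_HSM) (hIDT : T_IDT) (hHRX : T_HRX) (hPRO : T_PRO) : T_NVC := by
  intro Ω S σ ν h τ hD hσ hS hSΩ hvol hpre hharm hsol W hW hWne hWsub hzero
  have hOop : IsOpen (Ω \ S) := hD.op.sdiff hS.isClosed
  -- all gradients vanish on `Ω \ S`
  have hpd : ∀ k l, ∀ x ∈ Ω \ S, pd l (h k) x = 0 := by
    intro k l
    refine hIDT (Ω \ S) W (pd l (h k)) hOop hpre ?_ ?_ hW hWne hWsub ?_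
    · exact (Pool.Agent.H14.IC.contDiffOn_pd hOop (hharm k).1 l).continuousOn
    · intro p hp
      obtain ⟨r, hr, hball⟩ := Metric.isOpen_iff.1 hOop p hp
      refine ⟨r / 16, by positivity, ?_⟩
      refine Pool.Agent.H73.IC.hxp Pool.Agent.H27.IC.ghc p (r / 16) (Ω \ S) (h k) l hOop
        (hharm k).1 ?_ (hHRX (Ω \ S) (h k) p r (hharm k) hr hball)
      intro x hx
      exact hball (Pool.Agent.H14.IC.mem_ball_of_cx hr hx)
    · intro x hx
      exact pd_eq_zero (hzero k x hx) l
  have hgr : ∀ k, ∀ x ∈ Ω \ S, gr (h k) x = 0 := fun k x hx => gr_eq_zero fun l => hpd k l x hx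
  have hae : ∀ k, ∀ᵐ x ∂(volume.restrict Ω), gr (h k) x = 0 := by
    intro k
    have h1 : ∀ᵐ x ∂(volume : Measure E), x ∉ S := by
      rw [ae_iff]
      simpa using hvol
    rw [ae_restrict_iff' hD.op.measurableSet]
    filter_upwards [h1] with x hx hxΩ
    exact hgr k x ⟨hxΩ, hx⟩
  obtain ⟨-, -, -, hsm, -⟩ := hHSM Ω S σ ν hD.op hD.bdd hσ hS hSΩ
  have hco : ∀ k : Fin 3, ContDiff ℝ ∞ (fun x : E => x k) := by
    intro k
    exact contDiff_piLp_apply (p := 2)
  have hhs : ∀ k : Fin 3, HS1 Ω S σ ν (fun x : E => x k) (gr fun x : E => x k)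
      (fun x : E => x k) := fun k => hsm _ (hco k)
  have hw : ∀ k : Fin 3, ∫ x, ν x k * x k ∂σ = 0 := by
    intro k
    have h1 := (hsol k).weak _ _ _ (hhs k)
    rw [← h1]
    have h2 : ∫ x in Ω, ⟪gr (h k) x, gr (fun x : E => x k) x⟫ = ∫ x in Ω, (0 : ℝ) := by
      refine integral_congr_ae ?_
      filter_upwards [hae k] with x hx
      rw [hx, inner_zero_left]
    rw [h2, integral_zero]
  obtain ⟨hσpos, ⟨hψ2, hψm⟩, hν⟩ := hPRO Ω σ ν hD hσ
  haveI := hσ.fin
  have hint : ∀ k : Fin 3, Integrable (fun x => ν x k * x k) σ := fun k =>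
    (hν k).l2.integrable_mul (hhs k).t2
  have hin : ∀ x : E, ⟪x, ν x⟫ = ∑ k : Fin 3, ν x k * x k := by
    intro x
    rw [PiLp.inner_apply]
    refine Finset.sum_congr rfl fun k _ => ?_
    simp [inner, mul_comm]
  have hsum : ∫ x, ⟪x, ν x⟫ ∂σ = 0 := by
    simp_rw [hin]
    rw [integral_finsetSum _ fun k _ => hint k]
    exact Finset.sum_eq_zero fun k _ => hw k
  have hinner : Integrable (fun x => ⟪x, ν x⟫) σ := by
    simp_rw [hin]
    exact integrable_finsetSum _ fun k _ => hint k
  have hm : ∫ x, psi0 Ω σ ν x ∂σ = 0 := hψm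
  unfold psi0 at hm
  rw [integral_sub hinner (integrable_const _), hsum, integral_const, smul_eq_mul] at hm
  have hvpos : 0 < (volume Ω).toReal := by
    refine ENNReal.toReal_pos ?_ hD.bdd.measure_lt_top.ne
    refine (hD.op.measure_pos volume ?_).ne'
    obtain ⟨x, hx⟩ := hWne
    exact ⟨x, (hWsub hx).1⟩
  have hr : (σ.real univ) = (σ univ).toReal := rfl
  rw [hr] at hm
  have : (σ univ).toReal * (3 * (volume Ω).toReal / (σ univ).toReal) = 3 * (volume Ω).toReal := by
    field_simp
  rw [this] at hm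
  linarith

end Pool.Agent.H2.IC
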